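import Mathlib

/-!
A family of sets of size at most `q` that covers all pairs and has at most the right number of members
is a Steiner system `S(n,q,2)`; weighting of the points of a system by a field.
-/

set_option autoImplicit false

namespace Pool.Agent.H184R10

open Finset

/-- a Steiner system with blocks of size `q` on the set `X` -/
def Ex (q : ℕ) (X : Type) : Prop :=
  ∃ 𝓑 : Set (Finset X), (∀ B ∈ 𝓑, B.card = q) ∧
    ∀ a b : X, a ≠ b → ∃! B, B ∈ 𝓑 ∧ a ∈ B ∧ b ∈ B

theorem ex_of_cover {V Ω : Type} [Fintype V] [DecidableEq V] [Fintype Ω] {q : ℕ} (hq : 2 ≤ q)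
    (blk : Ω → Finset V) (hcard : ∀ ω, (blk ω).card ≤ q)
    (hcov : ∀ a b : V, a ≠ b → ∃ ω, a ∈ blk ω ∧ b ∈ blk ω)
    (hcount : Fintype.card Ω * (q * (q - 1)) ≤ Fintype.card V * (Fintype.card V - 1)) :
    Ex q V := by
  classical
  -- ordered pairs
  let D : Finset (V × V) := univ.offDiag
  have hD : D.card = Fintype.card V * (Fintype.card V - 1) := by
    simp only [D, offDiag_card, card_univ]
    rw [Nat.mul_sub, Nat.mul_one]
  have hsum : ∑ ω, (blk ω).offDiag.card = ∑ p ∈ D, (univ.filter fun ω => p ∈ (blk ω).offDiag).card := by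
    simp only [card_eq_sum_ones, sum_filter]
    rw [sum_comm]
    refine sum_congr rfl fun ω _ => ?_
    rw [← sum_filter, ← card_eq_sum_ones, ← card_eq_sum_ones]
    congr 1
    ext p
    simp only [D, mem_offDiag, mem_filter, mem_univ, true_and]
    tauto
  have hle1 : ∀ ω, (blk ω).offDiag.card ≤ q * (q - 1) := by
    intro ω
    rw [offDiag_card]
    have h := hcard ω
    generalize (blk ω).card = m at h
    rcases Nat.eq_zero_or_pos m with rfl | hm
    · simp
    · have : m * m - m = m * (m - 1) := by rw [Nat.mul_sub, Nat.mul_one]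
      rw [this]
      exact Nat.mul_le_mul h (by omega)
  have hge1 : ∀ p ∈ D, 1 ≤ (univ.filter fun ω => p ∈ (blk ω).offDiag).card := by
    intro p hp
    rw [Nat.one_le_iff_ne_zero, ← Nat.pos_iff_ne_zero, card_pos]
    simp only [D, mem_offDiag] at hp
    obtain ⟨ω, h1, h2⟩ := hcov p.1 p.2 hp.2.2
    exact ⟨ω, mem_filter.2 ⟨mem_univ _, mem_offDiag.2 ⟨h1, h2, hp.2.2⟩⟩⟩
  have hA : ∑ ω, (blk ω).offDiag.card ≤ Fintype.card V * (Fintype.card V - 1) := by
    refine le_trans (sum_le_sum fun ω _ => hle1 ω) ?_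
    rw [sum_const, card_univ, smul_eq_mul]
    exact hcount
  have hB : Fintype.card V * (Fintype.card V - 1) ≤
      ∑ p ∈ D, (univ.filter fun ω => p ∈ (blk ω).offDiag).card := by
    rw [← hD]
    calc D.card = ∑ p ∈ D, 1 := card_eq_sum_ones D
      _ ≤ _ := sum_le_sum hge1
  have hEq : ∑ p ∈ D, (univ.filter fun ω => p ∈ (blk ω).offDiag).card = ∑ p ∈ D, 1 := by
    rw [← card_eq_sum_ones, hD]
    exact le_antisymm (hsum ▸ hA) hB
  have hone : ∀ p ∈ D, (univ.filter fun ω => p ∈ (blk ω).offDiag).card = 1 := by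
    have := (sum_eq_sum_iff_of_le hge1).1 hEq.symm
    exact fun p hp => (this p hp).symm
  have hEq2 : ∑ ω, (blk ω).offDiag.card = ∑ _ω : Ω, q * (q - 1) := by
    refine le_antisymm (sum_le_sum fun ω _ => hle1 ω) ?_
    rw [sum_const, card_univ, smul_eq_mul, hsum]
    exact hcount.trans hB
  have hfull : ∀ ω, (blk ω).offDiag.card = q * (q - 1) := by
    have := (sum_eq_sum_iff_of_le (fun ω _ => hle1 ω)).1 hEq2
    exact fun ω => this ω (mem_univ _)
  have hsz : ∀ ω, (blk ω).card = q := by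
    intro ω
    have h1 := hfull ω
    rw [offDiag_card] at h1
    have h := hcard ω
    generalize (blk ω).card = m at h h1
    by_contra hne
    have hlt : m < q := lt_of_le_of_ne h hne
    have h3 : m * m - m = m * (m - 1) := by rw [Nat.mul_sub, Nat.mul_one]
    rw [h3] at h1
    have h4 : m * (m - 1) < q * (q - 1) := by
      calc m * (m - 1) ≤ m * (q - 1) := Nat.mul_le_mul_left _ (by omega)
        _ < q * (q - 1) := Nat.mul_lt_mul_of_pos_right hlt (by omega)
    omega
  refine ⟨Set.range blk, ?_, ?_⟩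
  · rintro B ⟨ω, rfl⟩
    exact hsz ω
  · intro a b hab
    obtain ⟨ω, ha, hb⟩ := hcov a b hab
    refine ⟨blk ω, ⟨⟨ω, rfl⟩, ha, hb⟩, ?_⟩
    rintro C ⟨⟨ω', rfl⟩, ha', hb'⟩
    have h1 := hone (a, b) (mem_offDiag.2 ⟨mem_univ _, mem_univ _, hab⟩)
    obtain ⟨ω0, h0⟩ := card_eq_one.1 h1
    have e1 : ω ∈ univ.filter fun ω => (a, b) ∈ (blk ω).offDiag :=
      mem_filter.2 ⟨mem_univ _, mem_offDiag.2 ⟨ha, hb, hab⟩⟩
    have e2 : ω' ∈ univ.filter fun ω => (a, b) ∈ (blk ω).offDiag :=
      mem_filter.2 ⟨mem_univ _, mem_offDiag.2 ⟨ha', hb', hab⟩⟩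
    rw [h0, mem_singleton] at e1 e2
    rw [e1, e2]

end Pool.Agent.H184R10
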