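import Pool.Agent.H184R10.Fld

/-!
The base blocks (found by computer) and the table of the pairs of points which represent the classes of
differences, with the check in the kernel.
-/

set_option autoImplicit false

namespace Pool.Agent.H184R10

/-- the seven free base blocks: points `(j, c, x)`, `x` given by its base 5 digits -/
def FB : List (List (ℕ × ℕ × ℕ)) := [
  [(0, 0, 0), (0, 0, 6864), (1, 0, 4606), (1, 0, 4217), (1, 1, 14446), (1, 1, 13558), (2, 2, 6740), (2, 2, 14702), (0, 1, 7638), (0, 2, 14102)],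
  [(0, 0, 0), (0, 0, 14015), (1, 0, 12601), (1, 0, 5539), (1, 2, 1395), (1, 2, 8828), (0, 1, 9334), (1, 1, 3876), (2, 0, 15320), (2, 1, 14304)],
  [(1, 0, 0), (1, 0, 14486), (2, 1, 11112), (2, 1, 12431), (0, 0, 10596), (0, 1, 12341), (0, 2, 12220), (1, 1, 7274), (1, 2, 2887), (2, 2, 14743)],
  [(0, 1, 0), (0, 1, 6778), (0, 2, 1551), (0, 2, 9237), (1, 0, 38), (1, 1, 13440), (1, 2, 1168), (2, 0, 6733), (2, 1, 12328), (2, 2, 9123)],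
  [(1, 0, 0), (1, 0, 9722), (1, 0, 12541), (0, 1, 8518), (0, 1, 9947), (0, 2, 7764), (0, 2, 2480), (2, 2, 15094), (2, 2, 9229), (2, 0, 15395)],
  [(0, 0, 0), (0, 0, 4800), (0, 0, 357), (0, 1, 8884), (0, 1, 4263), (2, 0, 9212), (2, 0, 7769), (2, 2, 607), (2, 2, 9554), (2, 1, 11110)],
  [(2, 1, 0), (2, 1, 41), (2, 1, 407), (2, 1, 1143), (2, 0, 875), (2, 0, 5554), (1, 0, 7410), (1, 0, 10011), (1, 1, 6382), (1, 1, 7347)]]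

/-- the short base block -/
def SB : List (ℕ × ℕ × ℕ) := [(0, 0, 0), (1, 0, 1946)]

/-- for every `(j, j', δ, k)` a pair of points of a base block: number of the block (7: short), the two
positions, and the shift of the first point by an element of the prime field -/
def cert : List (ℕ × ℕ × ℕ × ℕ) := [
  (7, 0, 0, 1), (5, 3, 4, 0), (5, 0, 2, 0), (5, 1, 2, 0), (3, 1, 0, 0), (3, 2, 3, 0), (7, 0, 0, 3), (4, 5, 6, 0),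
  (5, 1, 0, 0), (0, 1, 0, 0), (4, 3, 4, 0), (1, 0, 1, 0), (7, 0, 0, 4), (5, 4, 3, 0), (5, 2, 0, 0), (5, 2, 1, 0),
  (3, 0, 1, 0), (3, 3, 2, 0), (7, 0, 0, 2), (4, 6, 5, 0), (5, 0, 1, 0), (0, 0, 1, 0), (4, 4, 3, 0), (1, 1, 0, 0),
  (4, 4, 5, 0), (0, 9, 0, 0), (1, 0, 6, 0), (3, 1, 3, 0), (0, 0, 8, 0), (5, 0, 3, 0), (2, 6, 4, 0), (3, 0, 3, 0),
  (4, 4, 6, 0), (0, 9, 1, 0), (3, 1, 2, 0), (4, 3, 6, 0), (0, 8, 9, 0), (0, 1, 8, 0), (5, 2, 4, 0), (4, 3, 5, 0),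
  (5, 0, 4, 0), (5, 1, 3, 0), (5, 2, 3, 0), (2, 4, 5, 0), (5, 1, 4, 0), (3, 0, 2, 0), (1, 1, 6, 0), (2, 5, 6, 0),
  (0, 9, 8, 0), (0, 8, 1, 0), (5, 4, 2, 0), (4, 5, 3, 0), (5, 4, 0, 0), (5, 3, 1, 0), (5, 3, 2, 0), (2, 5, 4, 0),
  (5, 4, 1, 0), (3, 2, 0, 0), (1, 6, 1, 0), (2, 6, 5, 0), (4, 5, 4, 0), (0, 0, 9, 0), (1, 6, 0, 0), (3, 3, 1, 0),
  (0, 8, 0, 0), (5, 3, 0, 0), (2, 4, 6, 0), (3, 3, 0, 0), (4, 6, 4, 0), (0, 1, 9, 0), (3, 2, 1, 0), (4, 6, 3, 0),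
  (7, 0, 1, 4), (3, 1, 5, 0), (0, 0, 2, 0), (1, 1, 2, 0), (0, 1, 2, 0), (2, 4, 0, 0), (1, 6, 7, 0), (7, 0, 1, 2),
  (3, 0, 5, 0), (2, 5, 7, 0), (0, 1, 3, 0), (7, 0, 1, 3), (1, 0, 2, 0), (2, 6, 8, 0), (0, 8, 4, 0), (0, 0, 3, 0),
  (3, 2, 6, 0), (3, 3, 6, 0), (0, 8, 5, 0), (7, 0, 1, 0), (2, 4, 1, 0), (7, 0, 1, 1), (1, 0, 3, 0), (1, 1, 3, 0),
  (2, 4, 7, 0), (2, 6, 1, 0), (0, 1, 5, 0), (0, 9, 2, 0), (1, 6, 5, 0), (4, 5, 1, 0), (2, 6, 0, 0), (4, 6, 1, 0),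
  (0, 0, 5, 0), (0, 9, 3, 0), (3, 3, 4, 0), (1, 1, 7, 0), (4, 5, 0, 0), (4, 6, 2, 0), (0, 1, 4, 0), (4, 6, 0, 0),
  (3, 0, 6, 0), (1, 6, 4, 0), (0, 0, 4, 0), (1, 0, 7, 0), (3, 1, 6, 0), (4, 5, 2, 0), (3, 2, 4, 0), (2, 5, 8, 0),
  (4, 3, 1, 0), (3, 1, 4, 0), (0, 8, 2, 0), (3, 0, 4, 0), (1, 6, 3, 0), (0, 9, 4, 0), (2, 5, 0, 0), (4, 4, 1, 0),
  (2, 4, 8, 0), (4, 4, 2, 0), (3, 2, 5, 0), (1, 1, 4, 0), (4, 3, 2, 0), (1, 1, 5, 0), (0, 9, 5, 0), (2, 5, 1, 0),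
  (4, 4, 0, 0), (1, 6, 2, 0), (0, 8, 3, 0), (4, 3, 0, 0), (2, 6, 7, 0), (1, 0, 4, 0), (1, 0, 5, 0), (3, 3, 5, 0),
  (4, 6, 7, 0), (1, 1, 8, 0), (4, 6, 8, 0), (0, 9, 6, 0), (4, 5, 7, 0), (5, 1, 5, 0), (2, 5, 2, 0), (5, 2, 6, 0),
  (2, 5, 3, 0), (5, 4, 9, 0), (5, 2, 5, 0), (3, 1, 8, 0), (3, 3, 9, 0), (0, 9, 7, 0), (1, 6, 9, 0), (3, 0, 8, 0),
  (5, 3, 9, 0), (3, 2, 9, 0), (4, 5, 8, 0), (5, 1, 6, 0), (5, 0, 6, 0), (1, 0, 8, 0), (2, 6, 9, 0), (5, 0, 5, 0),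
  (1, 0, 9, 0), (2, 5, 9, 0), (5, 2, 9, 0), (5, 4, 8, 0), (4, 3, 8, 0), (2, 4, 2, 0), (0, 8, 6, 0), (1, 1, 9, 0),
  (3, 0, 9, 0), (3, 3, 7, 0), (5, 1, 9, 0), (2, 4, 3, 0), (4, 5, 9, 0), (0, 8, 7, 0), (5, 0, 9, 0), (4, 6, 9, 0),
  (5, 3, 8, 0), (5, 3, 7, 0), (5, 4, 7, 0), (3, 2, 7, 0), (4, 3, 7, 0), (3, 1, 9, 0), (4, 4, 7, 0), (4, 4, 8, 0),
  (5, 1, 8, 0), (5, 4, 5, 0), (5, 3, 6, 0), (3, 2, 8, 0), (5, 0, 8, 0), (3, 0, 7, 0), (4, 3, 9, 0), (5, 1, 7, 0),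
  (5, 0, 7, 0), (2, 4, 9, 0), (2, 6, 3, 0), (1, 6, 8, 0), (5, 4, 6, 0), (5, 2, 7, 0), (3, 3, 8, 0), (0, 0, 7, 0),
  (0, 1, 6, 0), (2, 6, 2, 0), (0, 1, 7, 0), (5, 2, 8, 0), (3, 1, 7, 0), (0, 0, 6, 0), (4, 4, 9, 0), (5, 3, 5, 0),
  (1, 2, 0, 0), (2, 8, 6, 0), (0, 4, 8, 0), (0, 3, 0, 0), (3, 6, 2, 0), (3, 6, 3, 0), (0, 5, 8, 0), (7, 1, 0, 0),
  (2, 1, 4, 0), (7, 1, 0, 4), (1, 3, 0, 0), (1, 3, 1, 0), (7, 1, 0, 1), (3, 5, 1, 0), (0, 2, 0, 0), (1, 2, 1, 0),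
  (0, 2, 1, 0), (2, 0, 4, 0), (1, 7, 6, 0), (7, 1, 0, 3), (3, 5, 0, 0), (2, 7, 5, 0), (0, 3, 1, 0), (7, 1, 0, 2),
  (4, 2, 3, 0), (1, 5, 1, 0), (0, 5, 9, 0), (2, 1, 5, 0), (4, 0, 4, 0), (1, 2, 6, 0), (0, 3, 8, 0), (4, 0, 3, 0),
  (2, 7, 6, 0), (1, 4, 0, 0), (1, 5, 0, 0), (3, 5, 3, 0), (4, 1, 3, 0), (3, 4, 1, 0), (0, 2, 8, 0), (3, 4, 0, 0),
  (1, 3, 6, 0), (0, 4, 9, 0), (2, 0, 5, 0), (4, 1, 4, 0), (2, 8, 4, 0), (4, 2, 4, 0), (3, 5, 2, 0), (1, 4, 1, 0),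
  (4, 0, 5, 0), (4, 2, 6, 0), (0, 4, 1, 0), (4, 0, 6, 0), (3, 6, 0, 0), (1, 4, 6, 0), (0, 4, 0, 0), (1, 7, 0, 0),
  (3, 6, 1, 0), (4, 2, 5, 0), (3, 4, 2, 0), (2, 8, 5, 0), (2, 7, 4, 0), (2, 1, 6, 0), (0, 5, 1, 0), (0, 2, 9, 0),
  (1, 5, 6, 0), (4, 1, 5, 0), (2, 0, 6, 0), (4, 1, 6, 0), (0, 5, 0, 0), (0, 3, 9, 0), (3, 4, 3, 0), (1, 7, 1, 0),
  (7, 1, 1, 1), (6, 7, 6, 0), (0, 4, 5, 0), (2, 0, 1, 0), (6, 8, 9, 0), (4, 2, 0, 0), (7, 1, 1, 3), (1, 2, 3, 0),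
  (0, 3, 2, 0), (4, 2, 1, 0), (4, 1, 0, 0), (1, 5, 4, 0), (7, 1, 1, 4), (6, 6, 7, 0), (0, 5, 4, 0), (2, 1, 0, 0),
  (6, 9, 8, 0), (4, 0, 2, 0), (7, 1, 1, 2), (1, 3, 2, 0), (0, 2, 3, 0), (4, 1, 2, 0), (4, 0, 1, 0), (1, 4, 5, 0),
  (6, 7, 8, 0), (2, 0, 7, 0), (1, 7, 5, 0), (0, 3, 4, 0), (0, 3, 5, 0), (6, 6, 9, 0), (3, 4, 5, 0), (2, 7, 8, 0),
  (1, 3, 7, 0), (3, 6, 4, 0), (1, 7, 4, 0), (0, 2, 5, 0), (1, 5, 2, 0), (2, 8, 1, 0), (2, 1, 7, 0), (6, 7, 9, 0),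
  (6, 6, 8, 0), (2, 8, 0, 0), (1, 4, 2, 0), (0, 2, 4, 0), (1, 5, 3, 0), (1, 2, 7, 0), (3, 5, 6, 0), (1, 4, 3, 0),
  (1, 2, 5, 0), (2, 1, 8, 0), (2, 7, 1, 0), (6, 9, 7, 0), (6, 8, 6, 0), (2, 0, 8, 0), (1, 2, 4, 0), (0, 4, 2, 0),
  (1, 3, 5, 0), (1, 7, 2, 0), (3, 6, 5, 0), (1, 3, 4, 0), (6, 8, 7, 0), (2, 7, 0, 0), (1, 5, 7, 0), (0, 4, 3, 0),
  (0, 5, 3, 0), (6, 9, 6, 0), (3, 5, 4, 0), (2, 8, 7, 0), (1, 7, 3, 0), (3, 4, 6, 0), (1, 4, 7, 0), (0, 5, 2, 0),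
  (6, 9, 1, 0), (1, 7, 9, 0), (6, 7, 5, 0), (3, 6, 9, 0), (6, 9, 2, 0), (1, 2, 8, 0), (4, 2, 9, 0), (6, 8, 3, 0),
  (4, 0, 9, 0), (6, 8, 0, 0), (6, 9, 3, 0), (3, 4, 7, 0), (2, 7, 3, 0), (6, 6, 4, 0), (6, 7, 4, 0), (6, 8, 2, 0),
  (2, 8, 9, 0), (6, 9, 0, 0), (6, 6, 5, 0), (6, 8, 1, 0), (2, 7, 2, 0), (1, 3, 8, 0), (4, 1, 9, 0), (3, 5, 8, 0),
  (2, 0, 3, 0), (6, 7, 0, 0), (6, 7, 2, 0), (1, 2, 9, 0), (1, 4, 8, 0), (6, 7, 3, 0), (6, 7, 1, 0), (3, 5, 9, 0),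
  (0, 5, 7, 0), (1, 5, 8, 0), (2, 1, 3, 0), (0, 4, 7, 0), (6, 6, 0, 0), (6, 6, 2, 0), (6, 6, 1, 0), (2, 0, 2, 0),
  (0, 5, 6, 0), (1, 3, 9, 0), (6, 6, 3, 0), (2, 1, 2, 0), (2, 7, 9, 0), (3, 6, 7, 0), (3, 4, 8, 0), (0, 4, 6, 0),
  (1, 7, 8, 0), (3, 6, 8, 0), (1, 4, 9, 0), (0, 3, 7, 0), (1, 5, 9, 0), (2, 8, 3, 0), (6, 8, 5, 0), (6, 8, 4, 0),
  (0, 3, 6, 0), (4, 2, 8, 0), (6, 9, 4, 0), (2, 8, 2, 0), (6, 9, 5, 0), (0, 2, 7, 0), (0, 2, 6, 0), (4, 2, 7, 0),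
  (4, 1, 8, 0), (4, 0, 7, 0), (2, 1, 9, 0), (2, 0, 9, 0), (4, 0, 8, 0), (4, 1, 7, 0), (3, 5, 7, 0), (3, 4, 9, 0),
  (3, 9, 3, 0), (0, 7, 9, 0), (1, 9, 6, 0), (3, 8, 0, 0), (5, 9, 3, 0), (3, 9, 2, 0), (4, 8, 5, 0), (5, 6, 1, 0),
  (5, 6, 0, 0), (1, 8, 0, 0), (2, 9, 6, 0), (5, 5, 0, 0), (4, 7, 6, 0), (1, 8, 1, 0), (4, 8, 6, 0), (0, 6, 9, 0),
  (4, 7, 5, 0), (5, 5, 1, 0), (2, 2, 5, 0), (5, 6, 2, 0), (2, 3, 5, 0), (5, 9, 4, 0), (5, 5, 2, 0), (3, 8, 1, 0),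
  (5, 6, 4, 0), (5, 7, 2, 0), (3, 8, 3, 0), (0, 7, 0, 0), (0, 6, 1, 0), (2, 2, 6, 0), (0, 7, 1, 0), (5, 8, 2, 0),
  (3, 7, 1, 0), (0, 6, 0, 0), (4, 9, 4, 0), (5, 5, 3, 0), (5, 8, 1, 0), (5, 5, 4, 0), (5, 6, 3, 0), (3, 8, 2, 0),
  (5, 8, 0, 0), (3, 7, 0, 0), (4, 9, 3, 0), (5, 7, 1, 0), (5, 7, 0, 0), (2, 9, 4, 0), (2, 3, 6, 0), (1, 8, 6, 0),
  (4, 9, 5, 0), (0, 7, 8, 0), (5, 9, 0, 0), (4, 9, 6, 0), (5, 8, 3, 0), (5, 7, 3, 0), (5, 7, 4, 0), (3, 7, 2, 0),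
  (4, 7, 3, 0), (3, 9, 1, 0), (4, 7, 4, 0), (4, 8, 4, 0), (1, 9, 0, 0), (2, 9, 5, 0), (5, 9, 2, 0), (5, 8, 4, 0),
  (4, 8, 3, 0), (2, 2, 4, 0), (0, 6, 8, 0), (1, 9, 1, 0), (3, 9, 0, 0), (3, 7, 3, 0), (5, 9, 1, 0), (2, 3, 4, 0),
  (2, 3, 7, 0), (6, 4, 6, 0), (6, 4, 7, 0), (6, 2, 8, 0), (2, 9, 8, 0), (6, 0, 9, 0), (6, 5, 6, 0), (6, 1, 8, 0),
  (2, 2, 7, 0), (1, 8, 3, 0), (4, 9, 1, 0), (3, 8, 5, 0), (6, 1, 9, 0), (1, 9, 7, 0), (6, 5, 7, 0), (3, 9, 6, 0),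
  (6, 2, 9, 0), (1, 8, 2, 0), (4, 9, 2, 0), (6, 3, 8, 0), (4, 9, 0, 0), (6, 0, 8, 0), (6, 3, 9, 0), (3, 7, 4, 0),
  (6, 5, 9, 0), (0, 7, 2, 0), (0, 6, 2, 0), (4, 7, 2, 0), (4, 8, 1, 0), (4, 7, 0, 0), (2, 9, 1, 0), (2, 9, 0, 0),
  (4, 8, 0, 0), (4, 7, 1, 0), (3, 7, 5, 0), (3, 9, 4, 0), (1, 8, 7, 0), (3, 8, 6, 0), (1, 9, 4, 0), (0, 7, 3, 0),
  (1, 9, 5, 0), (2, 3, 8, 0), (6, 5, 8, 0), (6, 4, 8, 0), (0, 6, 3, 0), (4, 8, 2, 0), (6, 4, 9, 0), (2, 2, 8, 0),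
  (6, 0, 6, 0), (6, 2, 6, 0), (6, 1, 6, 0), (2, 2, 0, 0), (0, 6, 5, 0), (1, 9, 3, 0), (6, 3, 6, 0), (2, 2, 1, 0),
  (2, 9, 7, 0), (3, 7, 6, 0), (3, 8, 4, 0), (0, 6, 4, 0), (2, 3, 0, 0), (6, 0, 7, 0), (6, 2, 7, 0), (1, 9, 2, 0),
  (1, 8, 4, 0), (6, 3, 7, 0), (6, 1, 7, 0), (3, 9, 5, 0), (0, 7, 5, 0), (1, 8, 5, 0), (2, 3, 1, 0), (0, 7, 4, 0),
  (6, 5, 4, 0), (2, 2, 3, 0), (6, 1, 0, 0), (5, 5, 6, 0), (6, 1, 3, 0), (6, 2, 3, 0), (0, 7, 6, 0), (6, 3, 0, 0),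
  (6, 1, 2, 0), (4, 7, 8, 0), (5, 8, 7, 0), (6, 0, 2, 0), (6, 4, 5, 0), (2, 3, 2, 0), (6, 0, 1, 0), (5, 6, 5, 0),
  (6, 3, 1, 0), (6, 3, 2, 0), (0, 6, 7, 0), (6, 0, 3, 0), (6, 2, 1, 0), (4, 8, 7, 0), (5, 7, 8, 0), (6, 2, 0, 0),
  (6, 4, 2, 0), (5, 9, 7, 0), (5, 6, 9, 0), (5, 7, 5, 0), (5, 9, 8, 0), (4, 7, 9, 0), (3, 7, 8, 0), (5, 7, 6, 0),
  (2, 3, 9, 0), (6, 4, 0, 0), (6, 5, 1, 0), (1, 8, 9, 0), (6, 5, 2, 0), (5, 8, 5, 0), (6, 4, 1, 0), (3, 8, 9, 0),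
  (5, 8, 6, 0), (6, 5, 3, 0), (4, 8, 9, 0), (5, 5, 9, 0), (6, 5, 0, 0), (3, 9, 7, 0), (6, 4, 3, 0), (2, 2, 9, 0),
  (6, 2, 5, 0), (5, 5, 8, 0), (6, 1, 4, 0), (3, 9, 8, 0), (5, 6, 8, 0), (6, 3, 5, 0), (4, 9, 8, 0), (5, 9, 5, 0),
  (6, 0, 5, 0), (3, 7, 9, 0), (6, 3, 4, 0), (2, 9, 2, 0), (6, 2, 4, 0), (5, 7, 9, 0), (5, 9, 6, 0), (5, 5, 7, 0),
  (5, 8, 9, 0), (4, 9, 7, 0), (3, 8, 7, 0), (5, 6, 7, 0), (2, 9, 3, 0), (6, 0, 4, 0), (6, 1, 5, 0), (1, 9, 8, 0)]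

def getF (b i : ℕ) : ℕ × ℕ × ℕ := (FB.getD b []).getD i (0, 0, 0)

def getS (i : ℕ) : ℕ × ℕ × ℕ := SB.getD i (0, 0, 0)

/-- the powers of `2 + w` -/
def pg : ℕ → P2
  | 0 => (1, 0)
  | k + 1 => mul2 (pg k) (2, 1)

/-- `651 = 1 + 2 + 8 + 128 + 512` -/
def bits : List Bool := [true, true, false, true, false, false, false, true, false, true]

/-- the class of the difference `x + l - y` is `k` -/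
def clsB (x y l k : ℕ) : Bool :=
  decide (pw (sub6 (add2 (l, 0) (dec x).1, (dec x).2) (dec y)) bits = (pg k, (0, 0), (0, 0)))

def okF (j j' δ k : ℕ) (e : ℕ × ℕ × ℕ × ℕ) : Bool :=
  let P := getF e.1 e.2.1
  let Q := getF e.1 e.2.2.1
  Nat.blt e.1 7 && Nat.blt e.2.1 10 && Nat.blt e.2.2.1 10 && Nat.beq P.1 j && Nat.beq Q.1 j' &&
    Nat.beq (Q.2.1 % 3) ((δ + P.2.1) % 3) && clsB P.2.2 Q.2.2 0 k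

def okS (j j' δ k : ℕ) (e : ℕ × ℕ × ℕ × ℕ) : Bool :=
  let P := getS e.2.1
  let Q := getS e.2.2.1
  Nat.blt e.2.1 2 && Nat.blt e.2.2.1 2 && Nat.beq P.1 j && Nat.beq Q.1 j' &&
    Nat.beq (Q.2.1 % 3) ((δ + P.2.1) % 3) && clsB P.2.2 Q.2.2 e.2.2.2 k

def ok (c : ℕ) : Bool :=
  okF (c / 216) (c / 72 % 3) (c / 24 % 3) (c % 24) (cert.getD c (0, 0, 0, 0)) ||
    okS (c / 216) (c / 72 % 3) (c / 24 % 3) (c % 24) (cert.getD c (0, 0, 0, 0))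

theorem all_ok : (List.range 648).all ok = true := by
  decide +kernel

end Pool.Agent.H184R10
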