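import Pool.Agent.H184R10.Count

/-!
Steiner systems on `Option (J × A × K)`, `K` a finite field of characteristic `p`, from base blocks whose
differences represent all classes of nonzero elements modulo the group of `e`-th roots of unity; short
base blocks are unions of cosets of the prime field.
-/

set_option autoImplicit false

namespace Pool.Agent.H184R10

open Finset

section
variable {K : Type} [Field K] [Fintype K] [DecidableEq K] {p : ℕ} [hp : Fact p.Prime] [CharP K p]
variable {J A : Type} [Fintype J] [DecidableEq J] [Fintype A] [DecidableEq A] [AddCommGroup A]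

theorem card_roots_le {e : ℕ} (he : 0 < e) : Fintype.card {ν : K // ν ^ e = 1} ≤ e := by
  classical
  rw [Fintype.card_subtype]
  calc (univ.filter fun ν : K => ν ^ e = 1).card ≤ (Polynomial.nthRoots e (1 : K)).toFinset.card := by
        refine card_le_card fun ν hν => ?_
        rw [Multiset.mem_toFinset, Polynomial.mem_nthRoots he]
        exact (mem_filter.1 hν).2
    _ ≤ Multiset.card (Polynomial.nthRoots e (1 : K)) := Multiset.toFinset_card_le _
    _ ≤ e := Polynomial.card_nthRoots e 1

variable (K p) in
/-- the prime field -/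
noncomputable def phi : ZMod p →+* K := ZMod.castHom (dvd_refl p) K

variable (K p) in
/-- the prime field as a subgroup -/
noncomputable def HH : AddSubgroup K := (phi K p).toAddMonoidHom.range

theorem card_quot : Nat.card (K ⧸ HH K p) * p = Fintype.card K := by
  have h1 := AddSubgroup.card_eq_card_quotient_mul_card_addSubgroup (HH K p)
  have h2 : Nat.card (HH K p) = p := by
    have : Function.Injective (phi K p) := (phi K p).injective
    have h3 : Nat.card (HH K p) = Nat.card (ZMod p) := by
      refine (Nat.card_congr (Equiv.ofInjective (phi K p) this)).symm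
    rw [h3, Nat.card_zmod]
  rw [h2, Nat.card_eq_fintype_card (α := K)] at h1
  exact h1.symm

open Classical in
theorem design {q r a b e : ℕ} (hq : 2 ≤ q) (hJA : Fintype.card J * Fintype.card A + 1 = q)
    (hr : r * p = q) (he : 0 < e)
    (F : Fin a → Fin q → J × A × K) (S : Fin b → Fin r → J × A × K)
    (hcov : ∀ (j j' : J) (δ : A) (y : K), y ≠ 0 →
      (∃ k i i', (F k i).1 = j ∧ (F k i').1 = j' ∧ (F k i').2.1 - (F k i).2.1 = δ ∧
        (F k i).2.2 - (F k i').2.2 ≠ 0 ∧ y ^ e = ((F k i).2.2 - (F k i').2.2) ^ e) ∨
      (∃ k i i', ∃ l : ZMod p, (S k i).1 = j ∧ (S k i').1 = j' ∧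
        (S k i').2.1 - (S k i).2.1 = δ ∧ (S k i).2.2 + phi K p l - (S k i').2.2 ≠ 0 ∧
        y ^ e = ((S k i).2.2 + phi K p l - (S k i').2.2) ^ e))
    (hcount : (Fintype.card K + a * (Fintype.card A * (e * Fintype.card K)) +
        b * (Fintype.card A * (e * (Fintype.card K / p)))) * (q * (q - 1)) ≤
      ((q - 1) * Fintype.card K + 1) * ((q - 1) * Fintype.card K)) :
    Ex q (Option (J × A × K)) := by
  haveI : Fintype (K ⧸ HH K p) := Fintype.ofFinite _
  let N := {ν : K // ν ^ e = 1}
  let Ω := K ⊕ (Fin a × A × N × K) ⊕ (Fin b × A × N × (K ⧸ HH K p))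
  let b0 : K → Finset (Option (J × A × K)) := fun t =>
    insert none (univ.image fun x : J × A => some (x.1, x.2, t))
  let b1 : (Fin a × A × N × K) → Finset (Option (J × A × K)) := fun ω =>
    univ.image fun i : Fin q => some ((F ω.1 i).1, (F ω.1 i).2.1 + ω.2.1,
      ω.2.2.1.1 * (F ω.1 i).2.2 + ω.2.2.2)
  let b2 : (Fin b × A × N × (K ⧸ HH K p)) → Finset (Option (J × A × K)) := fun ω =>
    univ.image fun i : Fin r × ZMod p => some ((S ω.1 i.1).1, (S ω.1 i.1).2.1 + ω.2.1,
      ω.2.2.1.1 * ((S ω.1 i.1).2.2 + phi K p i.2 + (Quotient.out ω.2.2.2)))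
  let blk : Ω → Finset (Option (J × A × K)) := fun ω =>
    Sum.elim b0 (Sum.elim b1 b2) ω
  have hpp : 0 < p := hp.out.pos
  have hcK : Fintype.card (K ⧸ HH K p) = Fintype.card K / p := by
    have h := card_quot (K := K) (p := p)
    rw [Nat.card_eq_fintype_card] at h
    rw [← h, Nat.mul_div_cancel _ hpp]
  have hN : Fintype.card N ≤ e := card_roots_le he
  refine ex_of_cover hq blk ?_ ?_ ?_
  · -- sizes
    rintro (t | ω | ω)
    · change (b0 t).card ≤ q
      refine (card_insert_le _ _).trans ?_
      rw [← hJA]
      refine Nat.succ_le_succ (card_image_le.trans ?_)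
      rw [card_univ, Fintype.card_prod]
    · change (b1 ω).card ≤ q
      refine card_image_le.trans ?_
      rw [card_univ, Fintype.card_fin]
    · change (b2 ω).card ≤ q
      refine card_image_le.trans ?_
      rw [card_univ, Fintype.card_prod, Fintype.card_fin, ZMod.card, hr]
  · -- covering
    have hb0 : ∀ (x : J × A × K), some x ∈ b0 x.2.2 := by
      rintro ⟨j, c, x⟩
      exact mem_insert_of_mem (mem_image.2 ⟨(j, c), mem_univ _, rfl⟩)
    have key : ∀ P P' : J × A × K, P ≠ P' → ∃ ω, some P ∈ blk ω ∧ some P' ∈ blk ω := by
      rintro ⟨j, c, x⟩ ⟨j', c', x'⟩ hne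
      by_cases hx : x = x'
      · subst hx
        exact ⟨Sum.inl x, hb0 _, mem_insert_of_mem (mem_image.2 ⟨(j', c'), mem_univ _, rfl⟩)⟩
      · have hy : x - x' ≠ 0 := sub_ne_zero.2 hx
        rcases hcov j j' (c' - c) (x - x') hy with
          ⟨k, i, i', h1, h2, h3, h4, h5⟩ | ⟨k, i, i', l, h1, h2, h3, h4, h5⟩
        · set D := (F k i).2.2 - (F k i').2.2 with hD
          have hν : ((x - x') / D) ^ e = 1 := by
            rw [div_pow, h5, div_self (pow_ne_zero _ h4)]
          refine ⟨Sum.inr (Sum.inl (k, c - (F k i).2.1, ⟨(x - x') / D, hν⟩,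
            x - (x - x') / D * (F k i).2.2)), ?_, ?_⟩
          · change _ ∈ b1 _
            refine mem_image.2 ⟨i, mem_univ _, ?_⟩
            simp only [Option.some.injEq, Prod.mk.injEq]
            exact ⟨h1, by abel, by ring⟩
          · change _ ∈ b1 _
            refine mem_image.2 ⟨i', mem_univ _, ?_⟩
            simp only [Option.some.injEq, Prod.mk.injEq]
            refine ⟨h2, ?_, ?_⟩
            · have : (F k i').2.1 = (c' - c) + (F k i).2.1 := by rw [← h3]; abel
              rw [this]; abel
            · have e1 : (x - x') / D * (F k i').2.2 + (x - (x - x') / D * (F k i).2.2) =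
                  x - (x - x') / D * D := by rw [hD]; ring
              rw [e1, div_mul_cancel₀ _ h4]
              ring
        · set D := (S k i).2.2 + phi K p l - (S k i').2.2 with hD
          have hν : ((x - x') / D) ^ e = 1 := by
            rw [div_pow, h5, div_self (pow_ne_zero _ h4)]
          set ν := (x - x') / D with hνd
          have hν0 : ν ≠ 0 := div_ne_zero hy h4
          have hνD : ν * D = x - x' := div_mul_cancel₀ _ h4
          set t0 : K := x / ν - ((S k i).2.2 + phi K p l) with ht0
          obtain ⟨m, hm⟩ : ∃ m : ZMod p, phi K p m = Quotient.out (QuotientAddGroup.mk t0 : K ⧸ HH K p) - t0 := by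
            have h6 : (QuotientAddGroup.mk t0 : K ⧸ HH K p) =
                QuotientAddGroup.mk (Quotient.out (QuotientAddGroup.mk t0 : K ⧸ HH K p)) :=
              (QuotientAddGroup.out_eq' _).symm
            rw [QuotientAddGroup.eq] at h6
            obtain ⟨m, hm⟩ := h6
            exact ⟨m, by
              have : phi K p m = -t0 + Quotient.out (QuotientAddGroup.mk t0 : K ⧸ HH K p) := hm
              rw [this]; ring⟩
          refine ⟨Sum.inr (Sum.inr (k, c - (S k i).2.1, ⟨ν, hν⟩, QuotientAddGroup.mk t0)), ?_, ?_⟩
          · change _ ∈ b2 _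
            refine mem_image.2 ⟨(i, l - m), mem_univ _, ?_⟩
            simp only [Option.some.injEq, Prod.mk.injEq]
            refine ⟨h1, by abel, ?_⟩
            have e1 : (Quotient.out (QuotientAddGroup.mk t0 : K ⧸ HH K p)) = phi K p m + t0 := by
              rw [hm]; ring
            rw [e1, map_sub, ht0]
            have : ν * ((S k i).2.2 + (phi K p l - phi K p m) +
                (phi K p m + (x / ν - ((S k i).2.2 + phi K p l)))) = ν * (x / ν) := by ring
            rw [this, mul_div_cancel₀ _ hν0]
          · change _ ∈ b2 _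
            refine mem_image.2 ⟨(i', - m), mem_univ _, ?_⟩
            simp only [Option.some.injEq, Prod.mk.injEq]
            refine ⟨h2, ?_, ?_⟩
            · have : (S k i').2.1 = (c' - c) + (S k i).2.1 := by rw [← h3]; abel
              rw [this]; abel
            · have e1 : (Quotient.out (QuotientAddGroup.mk t0 : K ⧸ HH K p)) = phi K p m + t0 := by
                rw [hm]; ring
              rw [e1, map_neg, ht0]
              have : ν * ((S k i').2.2 + -phi K p m +
                  (phi K p m + (x / ν - ((S k i).2.2 + phi K p l)))) =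
                  ν * (x / ν) - ν * D := by rw [hD]; ring
              rw [this, mul_div_cancel₀ _ hν0, hνD]
              ring
    intro P P' hne
    rcases P with _ | P <;> rcases P' with _ | P'
    · exact absurd rfl hne
    · exact ⟨Sum.inl P'.2.2, mem_insert_self _ _, hb0 P'⟩
    · exact ⟨Sum.inl P.2.2, hb0 P, mem_insert_self _ _⟩
    · exact key P P' fun h => hne (by rw [h])
  · -- the count
    have h1 : Fintype.card Ω ≤ Fintype.card K + a * (Fintype.card A * (e * Fintype.card K)) +
        b * (Fintype.card A * (e * (Fintype.card K / p))) := by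
      simp only [Ω, Fintype.card_sum, Fintype.card_prod, Fintype.card_fin, hcK]
      have h2 : a * (Fintype.card A * (Fintype.card N * Fintype.card K)) ≤
          a * (Fintype.card A * (e * Fintype.card K)) := by gcongr
      have h3 : b * (Fintype.card A * (Fintype.card N * (Fintype.card K / p))) ≤
          b * (Fintype.card A * (e * (Fintype.card K / p))) := by gcongr
      omega
    have hV : Fintype.card (Option (J × A × K)) = (q - 1) * Fintype.card K + 1 := by
      rw [Fintype.card_option, Fintype.card_prod, Fintype.card_prod, ← Nat.mul_assoc]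
      congr 2
      omega
    rw [hV, Nat.add_sub_cancel]
    exact (Nat.mul_le_mul_right _ h1).trans hcount

end

end Pool.Agent.H184R10
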