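import Mathlib

/-!
Arithmetic of the field with `5^6` elements: coordinates with respect to `w^i z^j`, `w^2 = 2`,
`z^3 = 1 + w`.
-/

set_option autoImplicit false

namespace Pool.Agent.H184R10

/-- an element `a + b w` of the field with 25 elements -/
abbrev P2 := ℕ × ℕ

def add2 (x y : P2) : P2 := ((x.1 + y.1) % 5, (x.2 + y.2) % 5)

def mul2 (x y : P2) : P2 := ((x.1 * y.1 + 2 * (x.2 * y.2)) % 5, (x.1 * y.2 + x.2 * y.1) % 5)

/-- multiplication by `γ = 1 + w` -/
def gam (x : P2) : P2 := ((x.1 + 2 * x.2) % 5, (x.1 + x.2) % 5)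

/-- an element `x + y z + u z^2` -/
abbrev P6 := P2 × P2 × P2

def mul6 (x y : P6) : P6 :=
  (add2 (mul2 x.1 y.1) (gam (add2 (mul2 x.2.1 y.2.2) (mul2 x.2.2 y.2.1))),
   add2 (add2 (mul2 x.1 y.2.1) (mul2 x.2.1 y.1)) (gam (mul2 x.2.2 y.2.2)),
   add2 (add2 (mul2 x.1 y.2.2) (mul2 x.2.1 y.2.1)) (mul2 x.2.2 y.1))

/-- the difference -/
def sub2 (x y : P2) : P2 := ((x.1 + 4 * y.1) % 5, (x.2 + 4 * y.2) % 5)

def sub6 (x y : P6) : P6 := (sub2 x.1 y.1, sub2 x.2.1 y.2.1, sub2 x.2.2 y.2.2)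

/-- the element with the given base 5 digits -/
def dec (n : ℕ) : P6 :=
  ((n % 5, n / 5 % 5), (n / 25 % 5, n / 125 % 5), (n / 625 % 5, n / 3125 % 5))

/-- powers, the exponent is given by its binary digits, the lowest one first -/
def pw (x : P6) : List Bool → P6
  | [] => ((1, 0), (0, 0), (0, 0))
  | true :: l => mul6 x (pw (mul6 x x) l)
  | false :: l => pw (mul6 x x) l

/-- value of a list of binary digits -/
def bval : List Bool → ℕ
  | [] => 0
  | true :: l => 2 * bval l + 1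
  | false :: l => 2 * bval l

section
variable {K : Type} [Field K] [CharP K 5] (w z : K)

def ev2 (x : P2) : K := (x.1 : K) + (x.2 : K) * w

def ev6 (x : P6) : K := ev2 w x.1 + ev2 w x.2.1 * z + ev2 w x.2.2 * z ^ 2

theorem cast_mod5 (n : ℕ) : ((n % 5 : ℕ) : K) = (n : K) := (CharP.cast_eq_mod K 5 n).symm

theorem five : (5 : K) = 0 := by
  have := CharP.cast_eq_zero K 5
  simpa using this

theorem ev2_add (x y : P2) : ev2 w (add2 x y) = ev2 w x + ev2 w y := by
  simp only [ev2, add2, cast_mod5]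
  push_cast
  ring

theorem ev2_sub (x y : P2) : ev2 w (sub2 x y) = ev2 w x - ev2 w y := by
  simp only [ev2, sub2, cast_mod5]
  push_cast
  linear_combination ((y.1 : K) + y.2 * w) * (five (K := K))

variable {w} in
theorem ev2_mul (hw : w ^ 2 = 2) (x y : P2) : ev2 w (mul2 x y) = ev2 w x * ev2 w y := by
  simp only [ev2, mul2, cast_mod5]
  push_cast
  linear_combination (-(x.2 : K) * y.2) * hw

variable {w} in
theorem ev2_gam (hw : w ^ 2 = 2) (x : P2) : ev2 w (gam x) = (1 + w) * ev2 w x := by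
  simp only [ev2, gam, cast_mod5]
  push_cast
  linear_combination (-(x.2 : K)) * hw

variable {w z} in
theorem ev6_mul (hw : w ^ 2 = 2) (hz : z ^ 3 = 1 + w) (x y : P6) :
    ev6 w z (mul6 x y) = ev6 w z x * ev6 w z y := by
  simp only [ev6, mul6, ev2_add, ev2_gam hw, ev2_mul hw]
  linear_combination (-(ev2 w x.2.1 * ev2 w y.2.2 + ev2 w x.2.2 * ev2 w y.2.1) -
    ev2 w x.2.2 * ev2 w y.2.2 * z) * hz

theorem ev6_sub (x y : P6) : ev6 w z (sub6 x y) = ev6 w z x - ev6 w z y := by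
  simp only [ev6, sub6, ev2_sub]
  ring

theorem ev6_one : ev6 w z ((1, 0), (0, 0), (0, 0)) = 1 := by
  simp [ev6, ev2]

variable {w z} in
theorem ev6_pw (hw : w ^ 2 = 2) (hz : z ^ 3 = 1 + w) (l : List Bool) (x : P6) :
    ev6 w z (pw x l) = ev6 w z x ^ bval l := by
  induction l generalizing x with
  | nil => simp [pw, bval, ev6_one]
  | cons b l ih =>
    cases b
    · simp only [pw, bval]
      rw [ih, ev6_mul hw hz, ← pow_two, ← pow_mul]
    · simp only [pw, bval]
      rw [ev6_mul hw hz, ih, ev6_mul hw hz, ← pow_two, ← pow_mul, pow_succ']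

end

/-- roots in a finite field -/
theorem exists_root {K : Type} [Field K] [Fintype K] {m : ℕ} (hm : 0 < m)
    (hdvd : m ∣ Fintype.card K - 1) {c : K} (hc : c ≠ 0)
    (h : c ^ ((Fintype.card K - 1) / m) = 1) : ∃ z : K, z ^ m = c := by
  classical
  obtain ⟨g, hg⟩ := IsCyclic.exists_generator (α := Kˣ)
  have hgo : orderOf g = Fintype.card K - 1 := by
    rw [orderOf_eq_card_of_forall_mem_zpowers hg, Nat.card_eq_fintype_card, Fintype.card_units]
  obtain ⟨i, hi⟩ : ∃ i : ℕ, g ^ i = Units.mk0 c hc := by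
    have h1 := hg (Units.mk0 c hc)
    rw [← mem_powers_iff_mem_zpowers] at h1
    exact h1
  obtain ⟨s, hs⟩ := hdvd
  have hK : 0 < Fintype.card K - 1 := by
    have := Fintype.one_lt_card (α := K)
    omega
  have hs0 : 0 < s := by
    rcases Nat.eq_zero_or_pos s with h0 | h0
    · rw [h0] at hs; omega
    · exact h0
  rw [hs, Nat.mul_div_cancel_left _ hm] at h
  have h2 : g ^ (i * s) = 1 := by
    rw [pow_mul, hi]
    ext
    simpa using h
  have h3 : m * s ∣ i * s := by
    rw [← hs, ← hgo]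
    exact orderOf_dvd_of_pow_eq_one h2
  obtain ⟨t, ht⟩ := Nat.dvd_of_mul_dvd_mul_right hs0 h3
  refine ⟨((g ^ t : Kˣ) : K), ?_⟩
  have h4 : (g ^ t) ^ m = Units.mk0 c hc := by
    rw [← pow_mul, Nat.mul_comm, ← ht, hi]
  have := congrArg (fun u : Kˣ => (u : K)) h4
  simpa using this

end Pool.Agent.H184R10
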