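import Pool.Agent.H184R10.Design
import Pool.Agent.H184R10.Data

/-!
The Steiner system `S(140626,10,2)`.
-/

set_option autoImplicit false

namespace Pool.Agent.H184R10

open Finset

instance fact5 : Fact (Nat.Prime 5) := ⟨by norm_num⟩

/-- the field with `5^6` elements -/
abbrev KK : Type := GaloisField 5 6

noncomputable instance : Fintype KK := Fintype.ofFinite _

noncomputable instance : DecidableEq KK := Classical.decEq _

theorem card_KK : Fintype.card KK = 15625 := by
  have h := GaloisField.card 5 6 (by norm_num)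
  have h2 : Nat.card KK = Fintype.card KK := Nat.card_eq_fintype_card
  rw [← h2, show KK = GaloisField 5 6 from rfl, h]
  norm_num

theorem exists_w : ∃ w : KK, w ^ 2 = 2 := by
  have h5 : (5 : KK) = 0 := five
  have h2 : (2 : KK) ≠ 0 := by
    intro h
    have h1 : (1 : KK) = 0 := by linear_combination h5 - 2 * h
    exact one_ne_zero h1
  refine exists_root (by norm_num) (by rw [card_KK]; norm_num) h2 ?_
  rw [card_KK]
  norm_num
  have h16 : (2 : KK) ^ 4 = 1 := by linear_combination 3 * h5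
  have : (7812 : ℕ) = 4 * 1953 := by norm_num
  rw [this, pow_mul, h16, one_pow]

theorem exists_z {w : KK} (hw : w ^ 2 = 2) : ∃ z : KK, z ^ 3 = 1 + w := by
  have h5 : (5 : KK) = 0 := five
  have h12 : (1 + w) ^ 12 = 1 := by
    have e2 : (1 + w) ^ 2 = 3 + 2 * w := by linear_combination hw
    have e4 : (1 + w) ^ 4 = 2 + 2 * w := by
      have : (1 + w) ^ 4 = ((1 + w) ^ 2) ^ 2 := by ring
      rw [this, e2]
      linear_combination 4 * hw + (3 + 2 * w) * h5
    have : (1 + w) ^ 12 = (1 + w) ^ 4 * ((1 + w) ^ 4) ^ 2 := by ring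
    rw [this, e4]
    linear_combination (24 + 8 * w) * hw + (11 + 8 * w) * h5
  have h1 : (1 + w) ≠ 0 := by
    intro h
    rw [h] at h12
    norm_num at h12
  refine exists_root (by norm_num) (by rw [card_KK]; norm_num) h1 ?_
  rw [card_KK]
  norm_num
  have : (5208 : ℕ) = 12 * 434 := by norm_num
  rw [this, pow_mul, h12, one_pow]

theorem prim {w : KK} (hw : w ^ 2 = 2) : IsPrimitiveRoot (2 + w) 24 := by
  have h5 : (5 : KK) = 0 := five
  have e2 : (2 + w) ^ 2 = 1 + 4 * w := by linear_combination hw + h5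
  have e4 : (2 + w) ^ 4 = 3 + 3 * w := by
    have : (2 + w) ^ 4 = ((2 + w) ^ 2) ^ 2 := by ring
    rw [this, e2]
    linear_combination 16 * hw + (6 + w) * h5
  have e8 : (2 + w) ^ 8 = 2 + 3 * w := by
    have : (2 + w) ^ 8 = ((2 + w) ^ 4) ^ 2 := by ring
    rw [this, e4]
    linear_combination 9 * hw + (5 + 3 * w) * h5
  have e12 : (2 + w) ^ 12 = 4 := by
    have : (2 + w) ^ 12 = (2 + w) ^ 8 * (2 + w) ^ 4 := by ring
    rw [this, e8, e4]
    linear_combination 9 * hw + (4 + 3 * w) * h5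
  have hfour : (4 : KK) ≠ 1 := by
    intro h
    have h1 : (1 : KK) = 0 := by linear_combination (2 : KK) * h - h5
    exact one_ne_zero h1
  rw [IsPrimitiveRoot.iff_orderOf]
  refine orderOf_eq_of_pow_and_pow_div_prime (by norm_num) ?_ ?_
  · have : (2 + w) ^ 24 = ((2 + w) ^ 12) ^ 2 := by ring
    rw [this, e12]
    linear_combination 3 * h5
  · intro p hp hd
    have : p = 2 ∨ p = 3 := by
      have h24 : p ∣ 2 ^ 3 * 3 := by norm_num at hd ⊢; exact hd
      rcases (Nat.Prime.dvd_mul hp).1 h24 with h | h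
      · exact Or.inl ((Nat.prime_dvd_prime_iff_eq hp Nat.prime_two).1 (hp.dvd_of_dvd_pow h))
      · exact Or.inr ((Nat.prime_dvd_prime_iff_eq hp Nat.prime_three).1 h)
    rcases this with rfl | rfl
    · norm_num
      rw [e12]
      exact hfour
    · norm_num
      rw [e8]
      intro h
      -- 3 w = -1, w = 3, w^2 = 9 = 4
      have h1 : w = 3 := by linear_combination 2 * h - (w + 1) * h5
      rw [h1] at hw
      have h2 : (1 : KK) = 0 := by linear_combination (3 : KK) * hw - 4 * h5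
      exact one_ne_zero h2

theorem class_exists {w : KK} (hw : w ^ 2 = 2) {y : KK} (hy : y ≠ 0) :
    ∃ k < 24, (2 + w) ^ k = y ^ 651 := by
  refine (prim hw).eq_pow_of_pow_eq_one ?_
  rw [← pow_mul]
  have h := FiniteField.pow_card_sub_one_eq_one y hy
  rw [card_KK] at h
  exact h

theorem ev2_pg {w : KK} (hw : w ^ 2 = 2) (k : ℕ) : ev2 w (pg k) = (2 + w) ^ k := by
  induction k with
  | zero => simp [pg, ev2]
  | succ k ih =>
    rw [pg, ev2_mul hw, ih, pow_succ]
    simp [ev2]

theorem clsB_spec {w z : KK} (hw : w ^ 2 = 2) (hz : z ^ 3 = 1 + w) {x y l k : ℕ}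
    (h : clsB x y l k = true) :
    (ev6 w z (dec x) + (l : KK) - ev6 w z (dec y)) ^ 651 = (2 + w) ^ k := by
  have h1 := of_decide_eq_true h
  have h2 := congrArg (ev6 w z) h1
  rw [ev6_pw hw hz, ev6_sub] at h2
  have h3 : bval bits = 651 := by decide
  rw [h3] at h2
  have h4 : ev6 w z (add2 (l, 0) (dec x).1, (dec x).2) = ev6 w z (dec x) + (l : KK) := by
    simp only [ev6, ev2_add]
    simp only [ev2]
    push_cast
    ring
  rw [h4] at h2
  rw [h2]
  simp only [ev6, ev2_pg hw]
  simp [ev2]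

/-- the free base blocks -/
noncomputable def FF (w z : KK) (k : Fin 7) (i : Fin 10) : ZMod 3 × ZMod 3 × KK :=
  (((getF k i).1 : ZMod 3), ((getF k i).2.1 : ZMod 3), ev6 w z (dec (getF k i).2.2))

/-- the short base block -/
noncomputable def SS (w z : KK) (_k : Fin 1) (i : Fin 2) : ZMod 3 × ZMod 3 × KK :=
  (((getS i).1 : ZMod 3), ((getS i).2.1 : ZMod 3), ev6 w z (dec (getS i).2.2))

theorem ex10 : Ex 10 (Option (ZMod 3 × ZMod 3 × KK)) := by
  obtain ⟨w, hw⟩ := exists_w
  obtain ⟨z, hz⟩ := exists_z hw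
  refine design (p := 5) (q := 10) (r := 2) (a := 7) (b := 1) (e := 651) (by norm_num)
    (by rw [ZMod.card]) (by norm_num) (by norm_num) (FF w z) (SS w z) ?_ ?_
  · intro j j' δ y hy
    obtain ⟨k, hk, hyk⟩ := class_exists hw hy
    have hc : ((j.val * 3 + j'.val) * 3 + δ.val) * 24 + k < 648 := by
      have h1 := j.val_lt
      have h2 := j'.val_lt
      have h3 := δ.val_lt
      omega
    have hok := List.all_eq_true.1 all_ok _ (List.mem_range.2 hc)
    have hj := j.val_lt
    have hj' := j'.val_lt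
    have hδ := δ.val_lt
    have e1 : (((j.val * 3 + j'.val) * 3 + δ.val) * 24 + k) / 216 = j.val := by omega
    have e2 : (((j.val * 3 + j'.val) * 3 + δ.val) * 24 + k) / 72 % 3 = j'.val := by omega
    have e3 : (((j.val * 3 + j'.val) * 3 + δ.val) * 24 + k) / 24 % 3 = δ.val := by omega
    have e4 : (((j.val * 3 + j'.val) * 3 + δ.val) * 24 + k) % 24 = k := by omega
    unfold ok at hok
    rw [e1, e2, e3, e4] at hok
    generalize cert.getD (((j.val * 3 + j'.val) * 3 + δ.val) * 24 + k) (0, 0, 0, 0) = en at hok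
    have hne : ∀ D : KK, D ^ 651 = (2 + w) ^ k → D ≠ 0 := by
      rintro D hD rfl
      rw [zero_pow (by norm_num)] at hD
      exact pow_ne_zero k ((prim hw).ne_zero (by norm_num)) hD.symm
    rcases Bool.or_eq_true _ _ |>.mp hok with h | h
    · left
      simp only [okF, Bool.and_eq_true, Nat.blt_eq, Nat.beq_eq] at h
      obtain ⟨⟨⟨⟨⟨⟨h1, h2⟩, h3⟩, h4⟩, h5⟩, h6⟩, h7⟩ := h
      have h8 := clsB_spec hw hz h7
      rw [Nat.cast_zero, add_zero] at h8
      refine ⟨⟨en.1, h1⟩, ⟨en.2.1, h2⟩, ⟨en.2.2.1, h3⟩, ?_, ?_, ?_, hne _ h8, ?_⟩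
      · simp only [FF, h4]
        exact ZMod.natCast_zmod_val j
      · simp only [FF, h5]
        exact ZMod.natCast_zmod_val j'
      · simp only [FF]
        rw [sub_eq_iff_eq_add]
        have h9 := (ZMod.natCast_eq_natCast_iff' _ _ 3).2 h6
        rw [h9, Nat.cast_add, ZMod.natCast_zmod_val]
      · simp only [FF]
        rw [← hyk, h8]
    · right
      simp only [okS, Bool.and_eq_true, Nat.blt_eq, Nat.beq_eq] at h
      obtain ⟨⟨⟨⟨⟨h2, h3⟩, h4⟩, h5⟩, h6⟩, h7⟩ := h
      have h8 := clsB_spec hw hz h7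
      have h10 : phi KK 5 (en.2.2.2 : ZMod 5) = (en.2.2.2 : KK) := map_natCast _ _
      refine ⟨0, ⟨en.2.1, h2⟩, ⟨en.2.2.1, h3⟩, (en.2.2.2 : ZMod 5), ?_, ?_, ?_, ?_, ?_⟩
      · simp only [SS, h4]
        exact ZMod.natCast_zmod_val j
      · simp only [SS, h5]
        exact ZMod.natCast_zmod_val j'
      · simp only [SS]
        rw [sub_eq_iff_eq_add]
        have h9 := (ZMod.natCast_eq_natCast_iff' _ _ 3).2 h6
        rw [h9, Nat.cast_add, ZMod.natCast_zmod_val]
      · simp only [SS]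
        rw [h10]
        exact hne _ h8
      · simp only [SS]
        rw [← hyk, h10, h8]
  · rw [card_KK, ZMod.card]

end Pool.Agent.H184R10
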