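import Pool.Agent.H184R10.Count

/-!
Weighting the points of a Steiner system by a finite field: from `S(n,q,2)` and `S(s+1,q,2)`, `s ≥ q - 1`
a prime power, one gets `S(n s + 1,q,2)`; and from `S(n,q,2)` and `S((q-1) s + 1,q,2)` one gets
`S((n-1) s + 1,q,2)`.
-/

set_option autoImplicit false

namespace Pool.Agent.H184R10

open Finset

theorem Ex.congr {k : ℕ} {X Y : Type} (e : X ≃ Y) (h : Ex k X) : Ex k Y := by
  classical
  obtain ⟨𝓑, h1, h2⟩ := h
  refine ⟨{C | ∃ B ∈ 𝓑, C = B.map e.toEmbedding}, ?_, ?_⟩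
  · rintro C ⟨B, hB, rfl⟩
    rw [card_map]
    exact h1 B hB
  · intro a b hab
    obtain ⟨B, ⟨hB, ha, hb⟩, hu⟩ := h2 (e.symm a) (e.symm b) (fun h => hab (e.symm.injective h))
    refine ⟨B.map e.toEmbedding, ⟨⟨B, hB, rfl⟩, ?_, ?_⟩, ?_⟩
    · rwa [mem_map_equiv]
    · rwa [mem_map_equiv]
    · rintro C ⟨⟨B', hB', rfl⟩, ha', hb'⟩
      rw [mem_map_equiv] at ha' hb'
      rw [hu B' ⟨hB', ha', hb'⟩]

/-- the lines of the affine plane over `F`, evaluated at `u`; `none` is the slope -/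
def lin {F : Type} [Field F] : Option F → F → F → F
  | none, _, b => b
  | some u, a, b => a + u * b

theorem lin_unique {F : Type} [Field F] {u u' : Option F} (h : u ≠ u') (z z' : F) :
    ∃ a b : F, lin u a b = z ∧ lin u' a b = z' ∧
      ∀ a' b' : F, lin u a' b' = z → lin u' a' b' = z' → a' = a ∧ b' = b := by
  rcases u with _ | u <;> rcases u' with _ | u'
  · exact absurd rfl h
  · refine ⟨z' - u' * z, z, rfl, by simp [lin], ?_⟩
    intro a' b' h1 h2
    simp only [lin] at h1 h2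
    refine ⟨?_, h1⟩
    rw [← h1, ← h2]
    ring
  · refine ⟨z - u * z', z', by simp [lin], rfl, ?_⟩
    intro a' b' h1 h2
    simp only [lin] at h1 h2
    refine ⟨?_, h2⟩
    rw [← h1, ← h2]
    ring
  · have hne : u - u' ≠ 0 := sub_ne_zero.2 fun h' => h (by rw [h'])
    refine ⟨z - u * ((z - z') / (u - u')), (z - z') / (u - u'), by simp [lin], ?_, ?_⟩
    · simp only [lin]
      field_simp
      ring
    · intro a' b' h1 h2
      simp only [lin] at h1 h2
      have e1 : b' = (z - z') / (u - u') := by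
        rw [eq_div_iff hne, ← h1, ← h2]
        ring
      refine ⟨?_, e1⟩
      rw [← e1, ← h1]
      ring

/-- weight `F` on the points, groups filled with the help of one new point -/
theorem Ex.weight {q : ℕ} {V F : Type} [Field F] [Fintype F] (hqF : q ≤ Fintype.card F + 1)
    (h : Ex q V) (hF : Ex q (Option F)) : Ex q (Option (V × F)) := by
  classical
  obtain ⟨𝓑, h1, h2⟩ := h
  obtain ⟨𝓒, h3, h4⟩ := hF
  have hc : ∀ B : Finset V, ∃ c : V → Option F, B ∈ 𝓑 → Set.InjOn c B := by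
    intro B
    by_cases hB : B ∈ 𝓑
    · have h5 : Fintype.card B ≤ Fintype.card (Option F) := by
        rw [Fintype.card_coe, h1 B hB, Fintype.card_option]
        exact hqF
      obtain ⟨e⟩ := Function.Embedding.nonempty_of_card_le h5
      refine ⟨fun x => if hx : x ∈ B then e ⟨x, hx⟩ else none, fun _ x hx y hy hxy => ?_⟩
      simp only [mem_coe] at hx hy
      simp only [hx, hy, dif_pos] at hxy
      exact congrArg Subtype.val (e.injective hxy)
    · exact ⟨fun _ => none, fun h => absurd h hB⟩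
  choose c hc using hc
  let blk : Finset V → F → F → Finset (Option (V × F)) := fun B a b =>
    B.image (fun x => some (x, lin (c B x) a b))
  let fib : V → Finset (Option F) → Finset (Option (V × F)) := fun x C =>
    C.image (fun z => z.map fun y => (x, y))
  have hblk : ∀ B a b x z, some (x, z) ∈ blk B a b ↔ x ∈ B ∧ z = lin (c B x) a b := by
    intro B a b x z
    simp only [blk, mem_image, Option.some.injEq, Prod.mk.injEq]
    constructor
    · rintro ⟨x', hx', rfl, rfl⟩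
      exact ⟨hx', rfl⟩
    · rintro ⟨hx, rfl⟩
      exact ⟨x, hx, rfl, rfl⟩
  have hblkn : ∀ B a b, none ∉ blk B a b := by
    intro B a b hn
    simp only [blk, mem_image, reduceCtorEq, and_false, exists_false] at hn
  have hfib : ∀ x' C x z, some (x, z) ∈ fib x' C ↔ x = x' ∧ some z ∈ C := by
    intro x' C x z
    simp only [fib, mem_image]
    constructor
    · rintro ⟨z', hz', he⟩
      rcases z' with _ | z'
      · simp at he
      · simp only [Option.map_some, Option.some.injEq, Prod.mk.injEq] at he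
        obtain ⟨rfl, rfl⟩ := he
        exact ⟨rfl, hz'⟩
    · rintro ⟨rfl, hz⟩
      exact ⟨some z, hz, rfl⟩
  have hfibn : ∀ x' C, none ∈ fib x' C ↔ none ∈ C := by
    intro x' C
    simp only [fib, mem_image]
    constructor
    · rintro ⟨z', hz', he⟩
      rcases z' with _ | z'
      · exact hz'
      · simp at he
    · intro hn
      exact ⟨none, hn, rfl⟩
  -- pairs with the new point
  have hinf : ∀ x z, ∃! D, D ∈ {D | (∃ B ∈ 𝓑, ∃ a b, D = blk B a b) ∨ ∃ x, ∃ C ∈ 𝓒, D = fib x C} ∧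
      none ∈ D ∧ some (x, z) ∈ D := by
    intro x z
    obtain ⟨C, ⟨hC, hn, hz⟩, hu⟩ := h4 none (some z) (by simp)
    refine ⟨fib x C, ⟨Or.inr ⟨x, C, hC, rfl⟩, (hfibn _ _).2 hn, (hfib _ _ _ _).2 ⟨rfl, hz⟩⟩, ?_⟩
    rintro D ⟨⟨B, hB, a, b, rfl⟩ | ⟨x1, C', hC', rfl⟩, hD1, hD2⟩
    · exact absurd hD1 (hblkn _ _ _)
    · rw [hfibn] at hD1
      rw [hfib] at hD2
      obtain ⟨rfl, hD2⟩ := hD2
      rw [hu C' ⟨hC', hD1, hD2⟩]
  refine ⟨{D | (∃ B ∈ 𝓑, ∃ a b, D = blk B a b) ∨ ∃ x, ∃ C ∈ 𝓒, D = fib x C}, ?_, ?_⟩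
  · rintro D (⟨B, hB, a, b, rfl⟩ | ⟨x, C, hC, rfl⟩)
    · rw [← h1 B hB]
      exact card_image_of_injective _ fun x y h => by
        simp only [Option.some.injEq, Prod.mk.injEq] at h
        exact h.1
    · rw [← h3 C hC]
      refine card_image_of_injective _ fun y y' h => ?_
      rcases y with _ | y <;> rcases y' with _ | y'
      · rfl
      · simp at h
      · simp at h
      · simp only [Option.map_some, Option.some.injEq, Prod.mk.injEq, true_and] at h
        rw [h]
  · rintro (_ | ⟨x, z⟩) (_ | ⟨x', z'⟩) hne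
    · exact absurd rfl hne
    · exact hinf x' z'
    · obtain ⟨D, ⟨hD, hD1, hD2⟩, hu⟩ := hinf x z
      exact ⟨D, ⟨hD, hD2, hD1⟩, fun D' hD' => hu D' ⟨hD'.1, hD'.2.2, hD'.2.1⟩⟩
    · by_cases hxx : x = x'
      · subst hxx
        have hz : (some z : Option F) ≠ some z' := fun h => hne (by
          rw [Option.some.injEq] at h; rw [h])
        obtain ⟨C, ⟨hC, hz1, hz2⟩, hu⟩ := h4 (some z) (some z') hz
        refine ⟨fib x C, ⟨Or.inr ⟨x, C, hC, rfl⟩, (hfib _ _ _ _).2 ⟨rfl, hz1⟩,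
          (hfib _ _ _ _).2 ⟨rfl, hz2⟩⟩, ?_⟩
        rintro D ⟨⟨B, hB, a, b, rfl⟩ | ⟨x1, C', hC', rfl⟩, hD1, hD2⟩
        · rw [hblk] at hD1 hD2
          exact absurd (congrArg some (hD1.2.trans hD2.2.symm)) hz
        · rw [hfib] at hD1 hD2
          obtain ⟨rfl, hD1⟩ := hD1
          rw [hu C' ⟨hC', hD1, hD2.2⟩]
      · obtain ⟨B, ⟨hB, hx, hx'⟩, hu⟩ := h2 x x' hxx
        have hcc : c B x ≠ c B x' := fun h =>
          hxx (hc B hB (mem_coe.2 hx) (mem_coe.2 hx') h)
        obtain ⟨a, b, e1, e2, e3⟩ := lin_unique hcc z z'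
        refine ⟨blk B a b, ⟨Or.inl ⟨B, hB, _, _, rfl⟩, (hblk _ _ _ _ _).2 ⟨hx, e1.symm⟩,
          (hblk _ _ _ _ _).2 ⟨hx', e2.symm⟩⟩, ?_⟩
        rintro D ⟨⟨B', hB', a', b', rfl⟩ | ⟨x1, C', hC', rfl⟩, hD1, hD2⟩
        · rw [hblk] at hD1 hD2
          have hBB : B' = B := hu B' ⟨hB', hD1.1, hD2.1⟩
          subst hBB
          obtain ⟨rfl, rfl⟩ := e3 a' b' hD1.2.symm hD2.2.symm
          rfl
        · rw [hfib] at hD1 hD2
          exact absurd (hD1.1.trans hD2.1.symm) hxx

/-- the trivial system -/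
theorem ex_trivial {V : Type} [Fintype V] {q : ℕ} (h : Fintype.card V = q) : Ex q V := by
  refine ⟨{univ}, ?_, ?_⟩
  · rintro B rfl
    rw [card_univ, h]
  · intro a b _
    exact ⟨univ, ⟨rfl, mem_univ _, mem_univ _⟩, fun D hD => hD.1⟩

/-- the points of the blocks through one point are weighted -/
theorem Ex.inflate {q : ℕ} {X F : Type} [Field F] [Fintype F] (hqF : q ≤ Fintype.card F + 1)
    (h : Ex q (Option X)) (hF : Ex q (Option (Fin (q - 1) × F))) :
    Ex q (Option (X × F)) := by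
  classical
  obtain ⟨𝓑, h1, h2⟩ := h
  obtain ⟨𝓒, h3, h4⟩ := hF
  -- the block through the special point and a point
  have hgrp : ∀ x : X, ∃! B, B ∈ 𝓑 ∧ none ∈ B ∧ some x ∈ B := fun x => h2 _ _ (by simp)
  -- numbering of the points of a block through `none`
  have hnum : ∀ B : Finset (Option X), ∃ g : Fin (q - 1) → Option X, B ∈ 𝓑 → none ∈ B →
      Function.Injective g ∧ (∀ i, ∃ x, g i = some x ∧ some x ∈ B) ∧
        ∀ x, some x ∈ B → ∃ i, g i = some x := by
    intro B
    by_cases hB : B ∈ 𝓑 ∧ none ∈ B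
    · have h5 : (eraseNone B).card = q - 1 := by
        rw [card_eraseNone_of_mem hB.2, h1 B hB.1]
      have e := (eraseNone B).equivFinOfCardEq h5
      refine ⟨fun i => some (e.symm i : X), fun _ _ => ⟨?_, ?_, ?_⟩⟩
      · intro i j hij
        simp only [Option.some.injEq] at hij
        exact e.symm.injective (Subtype.ext hij)
      · intro i
        exact ⟨(e.symm i : X), rfl, mem_eraseNone.1 (e.symm i).2⟩
      · intro x hx
        refine ⟨e ⟨x, mem_eraseNone.2 hx⟩, ?_⟩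
        simp only [Equiv.symm_apply_apply]
    · exact ⟨fun _ => none, fun h5 h6 => absurd ⟨h5, h6⟩ hB⟩
  choose g hg using hnum
  have hc : ∀ B : Finset (Option X), ∃ c : Option X → Option F, B ∈ 𝓑 → Set.InjOn c B := by
    intro B
    by_cases hB : B ∈ 𝓑
    · have h5 : Fintype.card B ≤ Fintype.card (Option F) := by
        rw [Fintype.card_coe, h1 B hB, Fintype.card_option]
        exact hqF
      obtain ⟨e⟩ := Function.Embedding.nonempty_of_card_le h5
      refine ⟨fun x => if hx : x ∈ B then e ⟨x, hx⟩ else none, fun _ x hx y hy hxy => ?_⟩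
      simp only [mem_coe] at hx hy
      simp only [hx, hy, dif_pos] at hxy
      exact congrArg Subtype.val (e.injective hxy)
    · exact ⟨fun _ => none, fun h => absurd h hB⟩
  choose c hc using hc
  let blk : Finset (Option X) → F → F → Finset (Option (X × F)) := fun B a b =>
    B.image (fun x => x.map fun y => (y, lin (c B x) a b))
  let psi : Finset (Option X) → Option (Fin (q - 1) × F) → Option (X × F) := fun B u =>
    u.bind fun v => (g B v.1).map fun y => (y, v.2)
  let fil : Finset (Option X) → Finset (Option (Fin (q - 1) × F)) → Finset (Option (X × F)) :=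
    fun B C => C.image (psi B)
  have hblk : ∀ B a b x z, some (x, z) ∈ blk B a b ↔ some x ∈ B ∧ z = lin (c B (some x)) a b := by
    intro B a b x z
    simp only [blk, mem_image]
    constructor
    · rintro ⟨x', hx', he⟩
      rcases x' with _ | x'
      · simp at he
      · simp only [Option.map_some, Option.some.injEq, Prod.mk.injEq] at he
        obtain ⟨rfl, rfl⟩ := he
        exact ⟨hx', rfl⟩
    · rintro ⟨hx, rfl⟩
      exact ⟨some x, hx, rfl⟩
  have hblkn : ∀ B a b, none ∉ B → none ∉ blk B a b := by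
    intro B a b hnB hn
    simp only [blk, mem_image] at hn
    obtain ⟨x', hx', he⟩ := hn
    rcases x' with _ | x'
    · exact hnB hx'
    · simp at he
  have hpsi : ∀ B, B ∈ 𝓑 → none ∈ B → ∀ (i : Fin (q - 1)) (z : F), ∃ x, g B i = some x ∧
      psi B (some (i, z)) = some (x, z) := by
    intro B hB hn i z
    obtain ⟨x, hx, -⟩ := (hg B hB hn).2.1 i
    refine ⟨x, hx, ?_⟩
    simp only [psi, Option.bind_some, hx, Option.map_some]
  have hinj : ∀ B, B ∈ 𝓑 → none ∈ B → Function.Injective (psi B) := by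
    intro B hB hn u v huv
    rcases u with _ | ⟨i, z⟩ <;> rcases v with _ | ⟨j, y⟩
    · rfl
    · obtain ⟨x, -, hx⟩ := hpsi B hB hn j y
      rw [hx] at huv
      simp [psi] at huv
    · obtain ⟨x, -, hx⟩ := hpsi B hB hn i z
      rw [hx] at huv
      simp [psi] at huv
    · obtain ⟨x, hx1, hx⟩ := hpsi B hB hn i z
      obtain ⟨x', hx1', hx'⟩ := hpsi B hB hn j y
      rw [hx, hx'] at huv
      simp only [Option.some.injEq, Prod.mk.injEq] at huv
      obtain ⟨rfl, rfl⟩ := huv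
      rw [(hg B hB hn).1 (hx1.trans hx1'.symm)]
  have hfil : ∀ B, B ∈ 𝓑 → none ∈ B → ∀ C x z, some (x, z) ∈ fil B C →
      some x ∈ B ∧ ∃ i, g B i = some x ∧ some (i, z) ∈ C := by
    intro B hB hn C x z hx
    simp only [fil, mem_image] at hx
    obtain ⟨u, hu, he⟩ := hx
    rcases u with _ | ⟨i, y⟩
    · simp [psi] at he
    · obtain ⟨x', hx1, hx2⟩ := hpsi B hB hn i y
      rw [hx2] at he
      simp only [Option.some.injEq, Prod.mk.injEq] at he
      obtain ⟨rfl, rfl⟩ := he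
      obtain ⟨x'', h5, h6⟩ := (hg B hB hn).2.1 i
      rw [hx1, Option.some.injEq] at h5
      subst h5
      exact ⟨h6, i, hx1, hu⟩
  have hfil' : ∀ B, B ∈ 𝓑 → none ∈ B → ∀ C x z i, g B i = some x → some (i, z) ∈ C →
      some (x, z) ∈ fil B C := by
    intro B hB hn C x z i hi hC
    obtain ⟨x', hx1, hx2⟩ := hpsi B hB hn i z
    rw [hi, Option.some.injEq] at hx1
    subst hx1
    exact mem_image.2 ⟨_, hC, hx2⟩
  have hfiln : ∀ B, B ∈ 𝓑 → none ∈ B → ∀ C, none ∈ fil B C ↔ none ∈ C := by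
    intro B hB hn C
    simp only [fil, mem_image]
    constructor
    · rintro ⟨u, hu, he⟩
      rcases u with _ | ⟨i, y⟩
      · exact hu
      · obtain ⟨x', hx1, hx2⟩ := hpsi B hB hn i y
        rw [hx2] at he
        simp at he
    · intro h5
      exact ⟨none, h5, rfl⟩
  let 𝓓 : Set (Finset (Option (X × F))) := {D | (∃ B ∈ 𝓑, none ∉ B ∧ ∃ a b, D = blk B a b) ∨
    ∃ B ∈ 𝓑, none ∈ B ∧ ∃ C ∈ 𝓒, D = fil B C}
  -- pairs with the special point
  have hinf : ∀ x z, ∃! D, D ∈ 𝓓 ∧ none ∈ D ∧ some (x, z) ∈ D := by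
    intro x z
    obtain ⟨B, ⟨hB, hn, hx⟩, hu⟩ := hgrp x
    obtain ⟨i, hi⟩ := (hg B hB hn).2.2 x hx
    obtain ⟨C, ⟨hC, hCn, hCz⟩, huC⟩ := h4 none (some (i, z)) (by simp)
    refine ⟨fil B C, ⟨Or.inr ⟨B, hB, hn, C, hC, rfl⟩, (hfiln B hB hn C).2 hCn,
      hfil' B hB hn C x z i hi hCz⟩, ?_⟩
    rintro D ⟨⟨B', hB', hn', a, b, rfl⟩ | ⟨B', hB', hn', C', hC', rfl⟩, hD1, hD2⟩
    · exact absurd hD1 (hblkn _ _ _ hn')
    · obtain ⟨h5, i', hi', h6⟩ := hfil B' hB' hn' C' x z hD2
      have hBB : B' = B := hu B' ⟨hB', hn', h5⟩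
      subst hBB
      have hii : i' = i := (hg B' hB' hn').1 (hi'.trans hi.symm)
      subst hii
      rw [huC C' ⟨hC', (hfiln B' hB' hn' C').1 hD1, h6⟩]
  refine ⟨𝓓, ?_, ?_⟩
  · rintro D (⟨B, hB, hn, a, b, rfl⟩ | ⟨B, hB, hn, C, hC, rfl⟩)
    · rw [← h1 B hB]
      refine card_image_of_injOn ?_
      intro x hx y hy hxy
      rcases x with _ | x
      · exact absurd (mem_coe.1 hx) hn
      rcases y with _ | y
      · exact absurd (mem_coe.1 hy) hn
      simp only [Option.map_some, Option.some.injEq, Prod.mk.injEq] at hxy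
      rw [hxy.1]
    · rw [← h3 C hC]
      exact card_image_of_injective _ (hinj B hB hn)
  · rintro (_ | ⟨x, z⟩) (_ | ⟨x', z'⟩) hne
    · exact absurd rfl hne
    · exact hinf x' z'
    · obtain ⟨D, ⟨hD, hD1, hD2⟩, hu⟩ := hinf x z
      exact ⟨D, ⟨hD, hD2, hD1⟩, fun D' hD' => hu D' ⟨hD'.1, hD'.2.2, hD'.2.1⟩⟩
    · -- is there a block through the special point and the two columns?
      by_cases hcol : ∃ B ∈ 𝓑, none ∈ B ∧ some x ∈ B ∧ some x' ∈ B
      · obtain ⟨B, hB, hn, hx, hx'⟩ := hcol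
        obtain ⟨i, hi⟩ := (hg B hB hn).2.2 x hx
        obtain ⟨i', hi'⟩ := (hg B hB hn).2.2 x' hx'
        have hne2 : (some (i, z) : Option (Fin (q - 1) × F)) ≠ some (i', z') := by
          intro h5
          simp only [Option.some.injEq, Prod.mk.injEq] at h5
          obtain ⟨rfl, rfl⟩ := h5
          rw [hi, Option.some.injEq] at hi'
          exact hne (by rw [hi'])
        obtain ⟨C, ⟨hC, hCz, hCz'⟩, huC⟩ := h4 _ _ hne2
        refine ⟨fil B C, ⟨Or.inr ⟨B, hB, hn, C, hC, rfl⟩, hfil' B hB hn C x z i hi hCz,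
          hfil' B hB hn C x' z' i' hi' hCz'⟩, ?_⟩
        rintro D ⟨⟨B', hB', hn', a, b, rfl⟩ | ⟨B', hB', hn', C', hC', rfl⟩, hD1, hD2⟩
        · rw [hblk] at hD1 hD2
          have hxx : x ≠ x' := by
            rintro rfl
            exact hne (by rw [hD1.2, hD2.2])
          have hBB : B' = B := (h2 (some x) (some x') (by simpa using hxx)).unique
            ⟨hB', hD1.1, hD2.1⟩ ⟨hB, hx, hx'⟩
          exact absurd (hBB ▸ hn) hn'
        · obtain ⟨h5, j, hj, h6⟩ := hfil B' hB' hn' C' x z hD1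
          obtain ⟨h5', j', hj', h6'⟩ := hfil B' hB' hn' C' x' z' hD2
          have hBB : B' = B := (hgrp x).unique ⟨hB', hn', h5⟩ ⟨hB, hn, hx⟩
          subst hBB
          have hjj : j = i := (hg B' hB' hn').1 (hj.trans hi.symm)
          have hjj' : j' = i' := (hg B' hB' hn').1 (hj'.trans hi'.symm)
          subst hjj
          subst hjj'
          rw [huC C' ⟨hC', h6, h6'⟩]
      · have hxx : x ≠ x' := by
          rintro rfl
          obtain ⟨B, ⟨hB, hn, hx⟩, -⟩ := hgrp x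
          exact hcol ⟨B, hB, hn, hx, hx⟩
        obtain ⟨B, ⟨hB, hx, hx'⟩, hu⟩ := h2 (some x) (some x') (by simpa using hxx)
        have hn : none ∉ B := fun hn => hcol ⟨B, hB, hn, hx, hx'⟩
        have hcc : c B (some x) ≠ c B (some x') := fun h5 =>
          hxx (by simpa using hc B hB (mem_coe.2 hx) (mem_coe.2 hx') h5)
        obtain ⟨a, b, e1, e2, e3⟩ := lin_unique hcc z z'
        refine ⟨blk B a b, ⟨Or.inl ⟨B, hB, hn, _, _, rfl⟩, (hblk _ _ _ _ _).2 ⟨hx, e1.symm⟩,
          (hblk _ _ _ _ _).2 ⟨hx', e2.symm⟩⟩, ?_⟩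
        rintro D ⟨⟨B', hB', hn', a', b', rfl⟩ | ⟨B', hB', hn', C', hC', rfl⟩, hD1, hD2⟩
        · rw [hblk] at hD1 hD2
          have hBB : B' = B := hu B' ⟨hB', hD1.1, hD2.1⟩
          subst hBB
          obtain ⟨rfl, rfl⟩ := e3 a' b' hD1.2.symm hD2.2.symm
          rfl
        · obtain ⟨h5, -⟩ := hfil B' hB' hn' C' x z hD1
          obtain ⟨h5', -⟩ := hfil B' hB' hn' C' x' z' hD2
          exact absurd ⟨B', hB', hn', h5, h5'⟩ hcol

end Pool.Agent.H184R10
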